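import Pool.Agent.TH915.S0.Fin
import Pool.Agent.TH915.S0.Champ
import Pool.Agent.TH915.S0.CatG

/-!
# Prime prefixes of real numbers at the lengths of the concatenated integers

Let `L n` be the number of decimal digits of the concatenation `a n` of `1, …, n`. The integers `a n`
are the prefixes `⌊10 ^ L n * C⌋` of Champernowne's constant `C = 0.123456789101112…`. For almost
every real number `x > 0` in place of `C` the number of `n ≤ N` for which the prefix
`⌊10 ^ L n * x⌋` is prime is `log log N` up to an error of square root size. The same holds along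
every set `S` of indices with divergent sum of `1 / (n log n)`; if this sum converges there are only
finitely many primes with index in `S`, for almost every `x > 0`.

Proof: means and correlations of the events by the prime number theorem with the classical error
term, for pairs `m ^ 4 ≤ n`, and by the Brun-Titchmarsh inequality for the other pairs; a chaining
argument (Gál-Koksma).
-/

set_option autoImplicit false

namespace Pool.Agent.Results.MP_9dc83d_nt.PrefixLaw

open Filter Topology MeasureTheory

/-- the concatenation of `1, …, n` -/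
def a : ℕ → ℕ
  | 0 => 0
  | n + 1 => a n * 10 ^ (Nat.digits 10 (n + 1)).length + (n + 1)

/-- the total number of digits of `1, …, n` -/
def L : ℕ → ℕ
  | 0 => 0
  | n + 1 => L n + (Nat.digits 10 (n + 1)).length

/-- the prefix of `x` with `L n` decimals -/
noncomputable def W (x : ℝ) (n : ℕ) : ℕ := ⌊(10 : ℝ) ^ L n * x⌋₊

open Classical in
/-- the number of `n ≤ N` in `S` with `W x n` prime -/
noncomputable def M (S : Set ℕ) (x : ℝ) (N : ℕ) : ℕ :=
  ((Finset.range (N + 1)).filter (fun n => n ∈ S ∧ (W x n).Prime)).card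

open Classical in
/-- the expected number -/
noncomputable def V (S : Set ℕ) (N : ℕ) : ℝ :=
  ∑ n ∈ (Finset.range (N + 1)).filter (fun n => n ∈ S), 1 / ((L n : ℝ) * Real.log 10)

/-- the error term -/
noncomputable def G (v : ℝ) : ℝ := Real.sqrt (1 + v) * (1 + Real.log (1 + v)) ^ 2

lemma L_eq (n : ℕ) : L n = Pool.Agent.TH915.S0.Ld n := by
  induction n with
  | zero => rfl
  | succ n ih => simp only [L, Pool.Agent.TH915.S0.Ld, ih]

lemma L_eq2 (n : ℕ) : L n = Pool.Agent.TH915.S0.Ld2 n := by
  induction n with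
  | zero => rfl
  | succ n ih => simp only [L, Pool.Agent.TH915.S0.Ld2, ih]

lemma a_eq (n : ℕ) : a n = Pool.Agent.TH915.S0.cat n := by
  induction n with
  | zero => rfl
  | succ n ih => simp only [a, Pool.Agent.TH915.S0.cat, ih]

lemma gr : Pool.Agent.TH915.S0.Gr (fun n => (10 : ℝ) ^ L n) where
  one n := by
    rcases Nat.eq_zero_or_pos (L n) with h | h
    · left; rw [h, pow_zero]
    · right
      calc (2 : ℝ) ≤ 10 ^ 1 := by norm_num
        _ ≤ 10 ^ L n := pow_le_pow_right₀ (by norm_num) h
  lo := by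
    simp only [L_eq2]
    exact ⟨1 / 2, by norm_num, Pool.Agent.TH915.S0.cat_growth⟩
  up := by
    simp only [L_eq2]
    exact Pool.Agent.TH915.S0.cat_upper

lemma sums : ∃ C : ℝ, 0 < C ∧ ∀ N : ℕ, 3 ≤ N →
    |∑ n ∈ Finset.range (N + 1), 1 / Real.log ((10 : ℝ) ^ L n) - Real.log (Real.log N)| ≤ C := by
  simp only [L_eq2]
  exact Pool.Agent.TH915.S0.cat_sum

lemma sh : Pool.Agent.TH915.S0.Sh (fun k => k) := fun _ => rfl

open Classical in
/-- **Prime prefixes of almost every real number.** -/
theorem result :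
    -- the numbers of the problem are the prefixes of one real number
    (∃ C : ℝ, 0 < C ∧ C < 1 ∧ ∀ n : ℕ, W C n = a n) ∧
    -- the law for all indices
    (∀ᵐ x : ℝ, 0 < x → ∃ B : ℝ, ∀ N : ℕ, 3 ≤ N →
      |(M Set.univ x N : ℝ) - Real.log (Real.log N)| ≤ B * G (Real.log (Real.log N))) ∧
    -- the law along a set of indices
    (∀ S : Set ℕ, (¬ Summable fun n : ℕ => if n ∈ S then 1 / ((n : ℝ) * Real.log n) else 0) →
      ∀ᵐ x : ℝ, 0 < x → ∃ B : ℝ, ∀ N : ℕ, |(M S x N : ℝ) - V S N| ≤ B * G (V S N)) ∧
    -- the convergence case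
    (∀ S : Set ℕ, (Summable fun n : ℕ => if n ∈ S then 1 / ((n : ℝ) * Real.log n) else 0) →
      ∀ᵐ x : ℝ, 0 < x → {n : ℕ | n ∈ S ∧ (W x n).Prime}.Finite) := by
  refine ⟨?_, ?_, fun S hS => ?_, fun S hS => ?_⟩
  · obtain ⟨C, h0, h1, h⟩ := Pool.Agent.TH915.S0.champ
    refine ⟨C, h0, h1, fun n => ?_⟩
    unfold W
    rw [L_eq, a_eq]
    exact h n
  · filter_upwards [Pool.Agent.TH915.S0.main_law sh gr sums] with x hx hx0
    obtain ⟨B, hB⟩ := hx hx0
    refine ⟨B, fun N hN => ?_⟩
    have h1 := hB N hN
    have e1 : (M Set.univ x N : ℝ) =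
        (((Finset.range (N + 1)).filter
          (fun n => (⌊(10 : ℝ) ^ L n * x⌋₊).Prime)).card : ℝ) := by
      unfold M W
      congr 2
      ext n
      simp
    rw [e1]
    exact h1
  · filter_upwards [Pool.Agent.TH915.S0.set_law sh gr S hS] with x hx hx0
    obtain ⟨B, hB⟩ := hx hx0
    refine ⟨B, fun N => ?_⟩
    have h1 := hB (N + 1)
    simp only [Real.log_pow] at h1
    exact h1
  · exact Pool.Agent.TH915.S0.set_fin sh gr S hS

end Pool.Agent.Results.MP_9dc83d_nt.PrefixLaw
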